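import Pool.Agent.W93.TD.Stm

set_option autoImplicit false

namespace Pool.Agent.W274.TD

open Finset W93.TD

open Classical in
/-- the balanced function on the field -/
noncomputable def gg {F : Type} [Field F] (a : F) (m : ℕ) (γ : F) : ZMod 2 :=
  if ∃ s < 2 ^ (m - 1), γ = a ^ s then 1 else 0

theorem pow_le_aux {m : ℕ} (hm : 2 ≤ m) : 2 ^ (m - 1) < 2 ^ m - 1 := by
  obtain ⟨k, rfl⟩ : ∃ k, m = k + 2 := ⟨m - 2, by omega⟩
  have h1 : 2 ^ (k + 2 - 1) = 2 * 2 ^ k := by
    rw [show k + 2 - 1 = k + 1 by omega, pow_succ]; ring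
  have h2 : 2 ^ (k + 2) = 4 * 2 ^ k := by rw [pow_add]; ring
  have h3 : 1 ≤ 2 ^ k := Nat.one_le_two_pow
  omega

theorem gg_card {F : Type} [Field F] [Fintype F] {m : ℕ} (hm : 2 ≤ m) (a : F)
    (hinj : ∀ i < 2 ^ m - 1, ∀ j < 2 ^ m - 1, a ^ i = a ^ j → i = j) :
    (univ.filter (fun γ => gg a m γ = 1)).card = 2 ^ (m - 1) := by
  classical
  have h1 : (univ.filter (fun γ => gg a m γ = 1)) = (range (2 ^ (m - 1))).image (fun s => a ^ s) := by
    ext γ
    simp only [mem_filter, mem_univ, true_and, mem_image, mem_range]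
    unfold gg
    constructor
    · intro h
      by_cases hc : ∃ s < 2 ^ (m - 1), γ = a ^ s
      · obtain ⟨s, hs, h2⟩ := hc
        exact ⟨s, hs, h2.symm⟩
      · rw [if_neg hc] at h
        exact absurd h (by decide)
    · rintro ⟨s, hs, h2⟩
      rw [if_pos ⟨s, hs, h2.symm⟩]
  rw [h1, card_image_of_injOn, card_range]
  intro i hi j hj h
  have h2 := pow_le_aux hm
  have hi' := mem_range.1 (Finset.mem_coe.1 hi)
  have hj' := mem_range.1 (Finset.mem_coe.1 hj)
  exact hinj i (by omega) j (by omega) h

theorem gg_small {F : Type} [Field F] (a : F) (m s : ℕ) (hs : s < 2 ^ (m - 1)) :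
    gg a m (a ^ s) = 1 := by
  unfold gg
  rw [if_pos ⟨s, hs, rfl⟩]

theorem gg_large {F : Type} [Field F] {m : ℕ} (hm : 2 ≤ m) (a : F)
    (hinj : ∀ i < 2 ^ m - 1, ∀ j < 2 ^ m - 1, a ^ i = a ^ j → i = j) (s : ℕ)
    (h1 : 2 ^ (m - 1) ≤ s) (h2 : s < 2 ^ m - 1) : gg a m (a ^ s) = 0 := by
  unfold gg
  rw [if_neg]
  rintro ⟨s', hs', h3⟩
  have := hinj s h2 s' (by omega) h3
  omega

theorem gg_zero {F : Type} [Field F] (a : F) (m : ℕ) (ha : a ≠ 0) : gg a m 0 = 0 := by
  unfold gg
  rw [if_neg]
  rintro ⟨s', hs', h3⟩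
  exact pow_ne_zero _ ha h3.symm

theorem z2 (x : ZMod 2) (h : x ≠ 0) : x = 1 := by
  revert x; decide

theorem core (m : ℕ) (hm : 2 ≤ m) (hTD : TuDeng m) (hN : S_NOANN) (hS : S_SPAN) (hB : S_BENT)
    (F : Type) [Field F] [Fintype F] [DecidableEq F] [Algebra (ZMod 2) F]
    (hcard : Fintype.card F = 2 ^ m) (a : F) (ha : a ≠ 0)
    (hinj : ∀ i < 2 ^ m - 1, ∀ j < 2 ^ m - 1, a ^ i = a ^ j → i = j)
    (Ψ : (Fin (2 * m) → ZMod 2) ≃ₗ[ZMod 2] F × F) (hi : Fin m → Fin (2 * m))
    (hΨ : ∀ v, (Ψ v).2 = 0 ↔ ∀ i, v (hi i) = 0) : Main m := by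
  classical
  refine ⟨fun v => if (Ψ v).2 = 0 then 0 else gg a m ((Ψ v).1 / (Ψ v).2), ?_, ?_⟩
  · -- bent
    intro b
    let l0 : (Fin (2 * m) → ZMod 2) →ₗ[ZMod 2] ZMod 2 :=
      { toFun := fun x => ∑ i, b i * x i
        map_add' := by
          intro x y
          simp only [Pi.add_apply, mul_add, sum_add_distrib]
        map_smul' := by
          intro c x
          simp only [Pi.smul_apply, smul_eq_mul, RingHom.id_apply, mul_sum]
          refine sum_congr rfl fun i _ => ?_
          ring }
    have h1 := hB m F hcard (by omega) (gg a m) (gg_card hm a hinj) (l0 ∘ₗ Ψ.symm.toLinearMap)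
    rw [← h1]
    congr 1
    refine Fintype.sum_equiv Ψ.toEquiv _ _ fun x => ?_
    have e1 : (l0 ∘ₗ Ψ.symm.toLinearMap) (Ψ.toEquiv x) = ∑ i, b i * x i := by
      simp [l0]
    rw [e1]
    rfl
  · intro d
    constructor
    · rintro ⟨g1, hg1, hann, c, hc, hcg⟩
      by_contra hd
      push Not at hd
      obtain ⟨c', hc', hP⟩ := hS m F hcard (2 * m) d
        (fun i => (LinearMap.proj i) ∘ₗ Ψ.symm.toLinearMap) c hc
      have hP' : ∀ x y : F, algebraMap (ZMod 2) F (g1 (Ψ.symm (x, y))) = P m c' x y := by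
        intro x y
        rw [← hP x y, hcg]
        rfl
      have hc'' : ∀ i j, m ≤ wt i + wt j → c' i j = 0 := fun i j hij => hc' i j (by omega)
      obtain ⟨n1, n2⟩ := hN m F a c' hm hTD hcard ha hinj hc''
      have hfin : ∀ x y : F, P m c' x y = 0 := by
        rcases hann with hann | hann
        · apply n1
          intro s hs y hy
          rw [← hP']
          have h3 := hann (Ψ.symm (a ^ s * y, y))
          simp only [LinearEquiv.apply_symm_apply] at h3
          rw [if_neg hy, mul_div_assoc, div_self hy, mul_one, gg_small a m s hs, one_mul] at h3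
          rw [h3, map_zero]
        · apply n2
          · intro s hs1 hs2 y hy
            rw [← hP']
            have h3 := hann (Ψ.symm (a ^ s * y, y))
            simp only [LinearEquiv.apply_symm_apply] at h3
            rw [if_neg hy, mul_div_assoc, div_self hy, mul_one, gg_large hm a hinj s hs1 hs2,
              zero_add, one_mul] at h3
            rw [h3, map_zero]
          · intro x
            rw [← hP']
            have h3 := hann (Ψ.symm (x, 0))
            simp only [LinearEquiv.apply_symm_apply] at h3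
            rw [if_pos trivial, zero_add, one_mul] at h3
            rw [h3, map_zero]
          · intro y
            rw [← hP']
            have h3 := hann (Ψ.symm (0, y))
            simp only [LinearEquiv.apply_symm_apply] at h3
            by_cases hy : y = 0
            · rw [if_pos hy, zero_add, one_mul] at h3
              rw [h3, map_zero]
            · rw [if_neg hy, zero_div, gg_zero a m ha, zero_add, one_mul] at h3
              rw [h3, map_zero]
      apply hg1
      funext v
      have h4 := hP' (Ψ v).1 (Ψ v).2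
      rw [hfin] at h4
      have h5 : Ψ.symm ((Ψ v).1, (Ψ v).2) = v := by simp
      rw [h5] at h4
      simpa using h4
    · intro hd
      let H : Finset (Fin (2 * m)) := univ.image hi
      have hH : H.card ≤ m := by
        refine card_image_le.trans ?_
        simp
      refine ⟨fun v => ∏ j ∈ H, (1 + v j), ?_, Or.inl ?_, fun S => if S ⊆ H then 1 else 0, ?_, ?_⟩
      · intro h
        have := congrFun h 0
        simp at this
      · intro v
        by_cases hv : (Ψ v).2 = 0
        · simp [hv]
        · have h1 : ∃ i, v (hi i) ≠ 0 := by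
            by_contra hcon
            push Not at hcon
            exact hv ((hΨ v).2 hcon)
          obtain ⟨i, hi'⟩ := h1
          have h2 : ∏ j ∈ H, (1 + v j) = 0 := by
            apply prod_eq_zero (i := hi i) (mem_image_of_mem _ (mem_univ _))
            rw [z2 _ hi']
            decide
          simp [h2]
      · intro S hS'
        by_cases h : S ⊆ H
        · exact (card_le_card h).trans (hH.trans hd)
        · simp [h] at hS'
      · intro v
        simp only
        rw [prod_one_add]
        rw [← sum_filter_add_sum_filter_not univ (fun S : Finset (Fin (2 * m)) => S ⊆ H)]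
        have e1 : ∑ S ∈ univ.filter (fun S : Finset (Fin (2 * m)) => ¬ S ⊆ H),
            (if S ⊆ H then (1 : ZMod 2) else 0) * ∏ i ∈ S, v i = 0 := by
          apply sum_eq_zero
          intro S hS'
          rw [if_neg (mem_filter.1 hS').2, zero_mul]
        rw [e1, add_zero]
        refine sum_congr ?_ ?_
        · ext S
          simp
        · intro S hS'
          rw [if_pos (mem_filter.1 hS').2, one_mul]

theorem t_FINAL : S_FINAL := by
  intro hTD hN hS hB m hm
  classical
  let F : Type := GaloisField 2 m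
  letI : Fintype F := Fintype.ofFinite F
  have hcard : Fintype.card F = 2 ^ m := by
    rw [← Nat.card_eq_fintype_card]
    exact GaloisField.card 2 m (by omega)
  have hfr : Module.finrank (ZMod 2) F = m := GaloisField.finrank 2 (by omega)
  obtain ⟨g, hg⟩ := IsCyclic.exists_generator (α := Fˣ)
  have hord : orderOf g = 2 ^ m - 1 := by
    rw [orderOf_eq_card_of_forall_mem_zpowers hg, Nat.card_units, Nat.card_eq_fintype_card, hcard]
  let φ : F ≃ₗ[ZMod 2] (Fin m → ZMod 2) := (Module.finBasisOfFinrankEq (ZMod 2) F hfr).equivFun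
  let σ : Fin m ⊕ Fin m ≃ Fin (2 * m) := finSumFinEquiv.trans (finCongr (by ring))
  let Ψ : (Fin (2 * m) → ZMod 2) ≃ₗ[ZMod 2] F × F :=
    ((LinearEquiv.funCongrLeft (ZMod 2) (ZMod 2) σ).trans
      (LinearEquiv.sumArrowLequivProdArrow (Fin m) (Fin m) (ZMod 2) (ZMod 2))).trans
      (LinearEquiv.prodCongr φ.symm φ.symm)
  refine core m hm (hTD m hm) hN hS hB F hcard (g : F) (Units.ne_zero g) ?_ Ψ
    (fun i => σ (Sum.inr i)) ?_
  · intro i hi j hj h
    have h1 : g ^ i = g ^ j := by
      apply Units.ext
      push_cast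
      exact h
    exact pow_injOn_Iio_orderOf (by rw [Set.mem_Iio, hord]; exact hi)
      (by rw [Set.mem_Iio, hord]; exact hj) h1
  · intro v
    have e1 : (Ψ v).2 = φ.symm (fun i => v (σ (Sum.inr i))) := rfl
    rw [e1, map_eq_zero_iff _ φ.symm.injective, funext_iff]
    rfl

end Pool.Agent.W274.TD
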